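import Pool.Agent.Helper64.IG.Goals

/-!
# Project IG, packet MONO: signed permutations of the basis at a given level
-/

open scoped BigOperators

universe u v

namespace Pool.Agent.Helper64.IG.PkMONO

theorem inc_inj {n p m q : ℕ} (hn : n ≤ m) (hp : p ≤ q) : Function.Injective (inc hn hp) := by
  intro a b h
  cases a <;> cases b <;> simp_all [inc, Fin.ext_iff]

theorem inc_self {n p : ℕ} (i : Ix n p) : inc (le_refl n) (le_refl p) i = i := by
  cases i <;> simp [inc]

theorem s_self {K : Type*} [Field K] {n p : ℕ} (g : Mono K n p) (i : Ix n p) :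
    g.s (le_refl n) (le_refl p) i = g.σ i := by
  have h : ∃ j, inc (le_refl n) (le_refl p) j = i := ⟨i, inc_self i⟩
  unfold Mono.s
  rw [dif_pos h, inc_self]
  have := h.choose_spec
  rw [inc_self] at this
  rw [this]

theorem c_self {K : Type*} [Field K] {n p : ℕ} (g : Mono K n p) (i : Ix n p) :
    g.c (le_refl n) (le_refl p) i = g.t i := by
  have h : ∃ j, inc (le_refl n) (le_refl p) j = i := ⟨i, inc_self i⟩
  unfold Mono.c
  rw [dif_pos h]
  have := h.choose_spec
  rw [inc_self] at this
  rw [this]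

/-- The extension of a permutation. -/
noncomputable def exP {n p : ℕ} (σ : Equiv.Perm (Ix n p)) : Equiv.Perm (Ix (n + 1) p) := by
  classical
  exact σ.extendDomain (Equiv.ofInjective _ (inc_inj (Nat.le_succ n) (le_refl p)))

theorem exP_apply {n p : ℕ} (σ : Equiv.Perm (Ix n p)) (i : Ix n p) :
    exP σ (inc (Nat.le_succ n) (le_refl p) i) = inc (Nat.le_succ n) (le_refl p) (σ i) := by
  classical
  unfold exP
  exact Equiv.Perm.extendDomain_apply_image σ
    (Equiv.ofInjective _ (inc_inj (Nat.le_succ n) (le_refl p))) i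

theorem exP_sign {n p : ℕ} (σ : Equiv.Perm (Ix n p)) :
    Equiv.Perm.sign (exP σ) = Equiv.Perm.sign σ := by
  classical
  unfold exP
  exact Equiv.Perm.sign_extendDomain σ _

/-- The extension of the scalars. -/
def exT {K : Type*} {n p : ℕ} (t : Ix n p → K) (s : K) : Ix (n + 1) p → K :=
  Sum.elim (Fin.snoc (α := fun _ => K) (fun i => t (Sum.inl i)) s) (fun j => t (Sum.inr j))

theorem exT_apply {K : Type*} {n p : ℕ} (t : Ix n p → K) (s : K) (i : Ix n p) :
    exT t s (inc (Nat.le_succ n) (le_refl p) i) = t i := by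
  cases i with
  | inl i =>
    have : inc (Nat.le_succ n) (le_refl p) (Sum.inl i : Ix n p) = Sum.inl i.castSucc := rfl
    rw [this]
    simp [exT]
  | inr j => simp [exT, inc]

theorem exT_prod {K : Type*} [Field K] {n p : ℕ} (t : Ix n p → K) (s : K) :
    ∏ i, exT t s i = s * ∏ i, t i := by
  rw [Fintype.prod_sum_type, Fintype.prod_sum_type, Fin.prod_univ_castSucc]
  simp only [exT, Sum.elim_inl, Sum.elim_inr, Fin.snoc_castSucc, Fin.snoc_last]
  ring

theorem exT_mem {K : Type*} [Field K] {n p : ℕ} (t : Ix n p → K) (s : K)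
    (ht : ∀ i, t i = 1 ∨ t i = -1) (hs : s = 1 ∨ s = -1) (i : Ix (n + 1) p) :
    exT t s i = 1 ∨ exT t s i = -1 := by
  cases i with
  | inl i =>
    refine Fin.lastCases ?_ (fun j => ?_) i
    · simpa [exT] using hs
    · simpa [exT] using ht (Sum.inl j)
  | inr j => simpa [exT] using ht (Sum.inr j)

theorem pm_mul {K : Type*} [Field K] {a b : K} (ha : a = 1 ∨ a = -1) (hb : b = 1 ∨ b = -1) :
    a * b = 1 ∨ a * b = -1 := by
  rcases ha with rfl | rfl <;> rcases hb with rfl | rfl <;> simp

theorem pm_prod {K ι : Type*} [Field K] (s : Finset ι) (t : ι → K)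
    (ht : ∀ i, t i = 1 ∨ t i = -1) : (∏ i ∈ s, t i) = 1 ∨ (∏ i ∈ s, t i) = -1 := by
  classical
  induction s using Finset.induction_on with
  | empty => left; simp
  | insert a s ha ih => rw [Finset.prod_insert ha]; exact pm_mul (ht a) ih

theorem pm_sign {K : Type*} [Field K] {α : Type*} [DecidableEq α] [Fintype α]
    (σ : Equiv.Perm α) : ((Equiv.Perm.sign σ : ℤ) : K) = 1 ∨
      ((Equiv.Perm.sign σ : ℤ) : K) = -1 := by
  rcases Int.units_eq_one_or (Equiv.Perm.sign σ) with h | h <;> rw [h] <;> simp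

theorem pm_sq {K : Type*} [Field K] {a : K} (ha : a = 1 ∨ a = -1) : a * a = 1 := by
  rcases ha with rfl | rfl <;> simp

/-- MONO. -/
theorem mono (act : G_ACT.{u}) : G_MONO.{u} := by
  intro K _ C hC x hx n p σ t ht
  set s : K := ((Equiv.Perm.sign σ : ℤ) : K) * ∏ i, t i with hs
  have hspm : s = 1 ∨ s = -1 := pm_mul (pm_sign σ) (pm_prod _ t ht)
  let g : Mono K (n + 1) p :=
    { σ := exP σ
      t := exT t s
      det := by
        rw [exP_sign, exT_prod]
        calc ((Equiv.Perm.sign σ : ℤ) : K) * (s * ∏ i, t i)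
            = s * (((Equiv.Perm.sign σ : ℤ) : K) * ∏ i, t i) := by ring
          _ = s * s := by rw [← hs]
          _ = 1 := pm_sq hspm }
  obtain ⟨y, hy⟩ := act K (n + 1) p g x
  refine ⟨y, hC (n + 1) p g (fun i => ?_) x y hy hx, ?_⟩
  · have := exT_mem t s ht hspm i
    simpa using this
  · intro a
    have h1 := hy (n + 1) p (le_refl _) (le_refl _) (inc (Nat.le_succ n) (le_refl p) ∘ a)
    have h2 : y.x n p a = y.x (n + 1) p (inc (Nat.le_succ n) (le_refl p) ∘ a) := by
      rw [← y.xi_eq n p]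
      rfl
    have h3 : x.x n p (σ ∘ a) = x.x (n + 1) p (inc (Nat.le_succ n) (le_refl p) ∘ (σ ∘ a)) := by
      rw [← x.xi_eq n p]
      rfl
    rw [h2, h1, h3]
    congr 1
    · refine Finset.prod_congr rfl fun j _ => ?_
      rw [c_self]
      exact exT_apply t s (a j)
    · congr 1
      funext j
      simp only [Function.comp]
      rw [s_self]
      exact exP_apply σ (a j)

end Pool.Agent.Helper64.IG.PkMONO
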