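import Pool.Agent.Helper64.IG.Goals

/-!
# Project IG, packet CLB: the locus of bounded branch-width is closed
-/

open scoped BigOperators

universe u v

namespace Pool.Agent.Helper64.IG.PkCLB

/-- Monotonicity of `Dec`. -/
theorem dec_mono {E : Type*} [DecidableEq E] {lam lam' : Finset E → ℕ} {w : ℕ}
    (h : ∀ X, lam' X ≤ lam X) {X : Finset E} (hd : Dec lam w X) : Dec lam' w X := by
  induction hd with
  | single e he => exact Dec.single e ((h _).trans he)
  | join A B hAB _ _ hl ihA ihB => exact Dec.join A B hAB ihA ihB ((h _).trans hl)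

/-- The rank function of a set of bases. -/
noncomputable def rA {n p : ℕ} (A : Finset (Fin p → Ix n p)) (X : Finset (Ix n p)) : ℕ := by
  classical
  exact A.sup fun a => (Finset.univ.filter fun j => a j ∈ X).card

/-- The support. -/
noncomputable def sup {K : Type*} [Field K] {n p : ℕ} (ω : Form K n p) :
    Finset (Fin p → Ix n p) := by
  classical
  exact Finset.univ.filter fun a => ω a ≠ 0

theorem mem_sup {K : Type*} [Field K] {n p : ℕ} (ω : Form K n p) (a : Fin p → Ix n p) :
    a ∈ sup ω ↔ ω a ≠ 0 := by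
  simp [sup]

theorem rk_eq {K : Type*} [Field K] {n p : ℕ} (ω : Form K n p) (X : Finset (Ix n p)) :
    rk ω X = rA (sup ω) X := rfl

theorem rA_mono {n p : ℕ} {A B : Finset (Fin p → Ix n p)} (h : A ⊆ B) (X : Finset (Ix n p)) :
    rA A X ≤ rA B X := by
  unfold rA
  exact Finset.sup_mono h

/-- The connectivity function of a set of bases. -/
noncomputable def cA {n p : ℕ} (A : Finset (Fin p → Ix n p)) (X : Finset (Ix n p)) : ℕ :=
  rA A X + rA A Xᶜ - p

theorem cA_mono {n p : ℕ} {A B : Finset (Fin p → Ix n p)} (h : A ⊆ B) (X : Finset (Ix n p)) :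
    cA A X ≤ cA B X := by
  unfold cA
  have h1 := rA_mono h X
  have h2 := rA_mono h Xᶜ
  omega

theorem conn_eq {K : Type*} [Field K] {n p : ℕ} (ω : Form K n p) : conn ω = cA (sup ω) := by
  funext X
  unfold conn cA
  rw [rk_eq, rk_eq]

theorem bw_iff {K : Type*} [Field K] {n p : ℕ} (w : ℕ) (ω : Form K n p) :
    BWLe w ω ↔ Dec (cA (sup ω)) w Finset.univ := by
  unfold BWLe
  rw [conn_eq]

/-- CLB. -/
theorem clb : G_CLB.{u} := by
  intro k K _ _ _ w
  refine ⟨{e | 1 ≤ e.n ∧ 1 ≤ e.p ∧ ∃ A : Finset (Fin e.p → Ix e.n e.p),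
    ¬ Dec (cA A) w Finset.univ ∧ e.f = ∏ a ∈ A, MvPolynomial.X a}, ?_⟩
  ext x
  constructor
  · intro hx e he
    obtain ⟨hn, hp, A, hA, hf⟩ := he
    unfold Sat
    rw [hf, map_prod]
    by_contra hne
    have hsub : A ⊆ sup (x.x e.n e.p) := by
      intro a ha
      rw [mem_sup]
      intro h0
      apply hne
      apply Finset.prod_eq_zero ha
      rw [MvPolynomial.aeval_X, h0]
    have h1 := (bw_iff w _).1 (hx e.n e.p hn hp)
    exact hA (dec_mono (cA_mono hsub) h1)
  · intro hx n p hn hp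
    rw [bw_iff]
    by_contra hbad
    have h1 := hx ⟨n, p, ∏ a ∈ sup (x.x n p), MvPolynomial.X a⟩
      ⟨hn, hp, sup (x.x n p), hbad, rfl⟩
    unfold Sat at h1
    simp only [map_prod, MvPolynomial.aeval_X] at h1
    rw [Finset.prod_eq_zero_iff] at h1
    obtain ⟨a, ha, h0⟩ := h1
    exact (mem_sup _ _).1 ha h0

end Pool.Agent.Helper64.IG.PkCLB
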