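import Pool.Agent.Helper64.IG.Goals

/-!
# Project IG, packet LA: gap embedding into a good tree = slicing
-/

open scoped BigOperators

universe u v

namespace Pool.Agent.Helper64.IG.PkLA

theorem sub_trans {X : Type*} {s t r : Tr X} (h1 : Tr.Sub s t) (h2 : Tr.Sub t r) :
    Tr.Sub s r := by
  induction h2 with
  | refl => exact h1
  | left k x b _ ih => exact Tr.Sub.left k x b ih
  | right k x a _ ih => exact Tr.Sub.right k x a ih

theorem dn_sub {X : Type*} {k : ℕ} {t f : Tr X} (h : Tr.Dn k t f) : Tr.Sub f t := by
  induction h with
  | here f _ => exact Tr.Sub.refl f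
  | left l x b _ _ ih => exact Tr.Sub.left l x b ih
  | right l x a _ _ ih => exact Tr.Sub.right l x a ih

theorem step_sub {X : Type*} {t f : Tr X} (h : Tr.Step t f) : Tr.Sub f t := by
  cases h with
  | left k x b h => exact Tr.Sub.left k x b (dn_sub h)
  | right k x a h => exact Tr.Sub.right k x a (dn_sub h)

theorem good_sub {K : Type*} [Field K] {w : ℕ} {s t : Tr (Var w → K)} (h : Good t)
    (hs : Tr.Sub s t) : Good s :=
  fun e f he hf => h e f (sub_trans he hs) hf

theorem fill_length : ∀ (pat : List (Option Bool)) (bs : List Bool),
    bs.length = pat.count none → (fill pat bs).length = pat.length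
  | [], bs, _ => by simp [fill]
  | none :: p, [], h => by simp at h
  | none :: p, b :: bs, h => by
      have h' : bs.length = p.count none := by simpa using h
      simp [fill, fill_length p bs h']
  | some c :: p, bs, h => by
      have h' : bs.length = p.count none := by simpa using h
      simp [fill, fill_length p bs h']

theorem fill_append : ∀ (pa pb : List (Option Bool)) (bs : List Bool),
    pa.count none ≤ bs.length →
    fill (pa ++ pb) bs = fill pa (bs.take (pa.count none)) ++ fill pb (bs.drop (pa.count none))
  | [], pb, bs, _ => by simp [fill]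
  | none :: p, pb, [], h => by simp at h
  | none :: p, pb, b :: bs, h => by
      have h' : p.count none ≤ bs.length := by simpa using h
      simp [fill, fill_append p pb bs h']
  | some c :: p, pb, bs, h => by
      have h' : p.count none ≤ bs.length := by simpa using h
      simp [fill, fill_append p pb bs h']

theorem fill_some : ∀ (sl : List Bool) (pb : List (Option Bool)) (bs : List Bool),
    fill (sl.map some ++ pb) bs = sl ++ fill pb bs
  | [], pb, bs => by simp
  | c :: sl, pb, bs => by simp [fill, fill_some sl pb bs]

theorem count_some (sl : List Bool) : (sl.map some).count none = 0 := by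
  rw [List.count_eq_zero]
  simp

theorem fill_right (pa : List (Option Bool)) (sr : List Bool) (bs : List Bool)
    (h : bs.length = pa.count none) :
    fill (pa ++ sr.map some) bs = fill pa bs ++ sr := by
  rw [fill_append pa _ bs h.ge, ← h, List.take_length, List.drop_length]
  have := fill_some sr [] []
  rw [List.append_nil] at this
  rw [this]
  simp [fill]

/-- LA. -/
theorem la : G_LA.{u} := by
  intro K _ w s t hg hE
  induction hE with
  | leaf k x y hxy =>
    subst hxy
    refine ⟨[none], rfl, rfl, ?_⟩
    intro α bs hbs
    match bs, hbs with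
    | [e], _ => rfl
  | node k x y a b c d hxy ha hb iha ihb =>
    subst hxy
    have gc : Good c := good_sub hg (Tr.Sub.left k x d (Tr.Sub.refl c))
    have gd : Good d := good_sub hg (Tr.Sub.right k x c (Tr.Sub.refl d))
    obtain ⟨pa, la, ca, ea⟩ := iha gc
    obtain ⟨pb, lb, cb, eb⟩ := ihb gd
    refine ⟨pa ++ pb, ?_, ?_, ?_⟩
    · simp [Tr.leaves, la, lb]
    · simp [Tr.leaves, ca, cb]
    · intro α bs hbs
      have hbs' : bs.length = a.leaves + b.leaves := hbs
      have h1 : (bs.take a.leaves).length = a.leaves := by
        rw [List.length_take, hbs']; omega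
      have h2 : (bs.drop a.leaves).length = b.leaves := by
        rw [List.length_drop, hbs']; omega
      have hf : fill (pa ++ pb) bs
          = fill pa (bs.take a.leaves) ++ fill pb (bs.drop a.leaves) := by
        rw [fill_append pa pb bs (by rw [ca, hbs']; omega), ca]
      have hl : (fill pa (bs.take a.leaves)).length = c.leaves := by
        rw [fill_length pa _ (by rw [h1, ca]), la]
      rw [hf]
      simp only [ev]
      refine Finset.sum_congr rfl fun β _ => Finset.sum_congr rfl fun γ _ => ?_
      rw [List.take_left' hl, List.drop_left' hl, ← ea β _ h1, ← eb γ _ h2]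
  | skip s t f hst hs ih =>
    have gf : Good f := good_sub hg (step_sub hst)
    obtain ⟨pf, lf, cf, ef⟩ := ih gf
    obtain ⟨sl, sr, hlen, hev⟩ := hg t f (Tr.Sub.refl t) hst
    refine ⟨sl.map some ++ (pf ++ sr.map some), ?_, ?_, ?_⟩
    · simp only [List.length_append, List.length_map, lf]
      omega
    · rw [List.count_append, List.count_append, count_some, count_some, cf]
      omega
    · intro α bs hbs
      rw [fill_some, fill_right pf sr bs (by rw [hbs, cf]), ef α bs hbs]
      rw [← hev α (fill pf bs) (by rw [fill_length pf bs (by rw [hbs, cf]), lf])]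
      rw [List.append_assoc]

end Pool.Agent.Helper64.IG.PkLA
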